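import Pool.Agent.Helper1.UB.LW
import Pool.Agent.Helper82.TET.MChain

/-!
# Bodies inside an obtuse chain simplex: the matrix of a chain and the list of its properties

For a chain `P 0, .., P 3` of lattice points with steps `f` and four vectors `g j` with sum zero, normalised by
`∑ g j · P j = 1`, put `c k j = g j · (P j - P k)`.  The properties in `Facts` are the ones which the finite certificate
uses; the certificate shows that no matrix has all of them for `W = 577/169`.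
-/

set_option autoImplicit false

namespace Pool.Agent.Helper38.TET

open Matrix Pool.Agent.Helper12.LW
open Pool.Agent.Helper84.FL (Superbase WidthLe)

/-- differences of consecutive columns -/
def G (c : Fin 4 → Fin 4 → ℝ) (l j : Fin 4) : ℝ := c l j - c (l + 1) j

/-- products of the differences -/
def GG (c : Fin 4 → Fin 4 → ℝ) (l m : Fin 4) : ℝ := ∑ j, G c l j * G c m j

/-- half the sum of the squares of the differences -/
noncomputable def PP (c : Fin 4 → Fin 4 → ℝ) : ℝ := (∑ l, GG c l l) / 2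

/-- the square of the sum of the differences over `A` -/
def cutA (c : Fin 4 → Fin 4 → ℝ) (A : Finset (Fin 4)) : ℝ := ∑ j, (∑ l ∈ A, G c l j) ^ 2

/-- `adj(c) n`, where `c` is the matrix with rows `c k` -/
noncomputable def X (c : Fin 4 → Fin 4 → ℝ) (n : Fin 4 → ℤ) (i : Fin 4) : ℝ :=
  ∑ k, (Matrix.of c).adjugate i k * (n k : ℝ)

/-- the value at the vertex `i` after moving it towards the vertex `m` by the fraction `e i` -/
noncomputable def XT (c : Fin 4 → Fin 4 → ℝ) (n : Fin 4 → ℤ) (e : Fin 4 → ℝ) (i m : Fin 4) : ℝ :=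
  (1 - e i) * X c n i + e i * X c n m

/-- the width inequalities of a body in the simplex with vertices truncated at the depths `e` -/
def Wid (c : Fin 4 → Fin 4 → ℝ) (W : ℝ) (e : Fin 4 → ℝ) : Prop :=
  ∀ n : Fin 4 → ℤ, (∃ k, n k ≠ n 0) → ∃ i m i' m' : Fin 4, m ≠ i ∧ m' ≠ i' ∧
    W * |(Matrix.of c).det| ≤ XT c n e i m - XT c n e i' m'

/-- row sums -/
def rs (c : Fin 4 → Fin 4 → ℝ) (j : Fin 4) : ℝ := ∑ k, c k j

/-- the properties of the matrix of a chain which the certificate uses -/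
structure Facts (c : Fin 4 → Fin 4 → ℝ) (W : ℝ) : Prop where
  diag : ∀ k, c k k = 0
  colsum : ∀ k, ∑ j, c k j = 1
  box : ∀ k j, c k j ≤ 5 / 8
  obt : ∀ l m, l ≠ m → GG c l m ≤ 0
  fos : PP c * W ^ 2 ≤ 6
  fosA : ∀ A : Finset (Fin 4), A.Nonempty → A ≠ Finset.univ → (PP c - cutA c A) * W ^ 2 ≤ 4
  wid : Wid c W (fun _ => 0)
  cut : ∀ m : Fin 4 → ℤ, ∑ k, m k = 1 → ∀ ε : ℝ, 0 ≤ ε → ε < 1 →
    (∃ i, ∑ k, (m k : ℝ) * c k i ≤ ε) ∨ ∃ k, Wid c W (Pi.single k ε)
  row1 : rs c 1 ≤ rs c 0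
  row2 : rs c 2 ≤ rs c 0
  row3 : rs c 3 ≤ rs c 0
  row31 : rs c 3 ≤ rs c 1
  cone : ∀ (i : Fin 6) (pos : Fin 4 → Fin 4), ∃ j m, m ≠ pos j ∧
    ∑ l, (Pool.Agent.Helper82.TET.CA i m l : ℝ) * G c l j < 0

/-- an obtuse chain around `K`: `f` is a superbase, obtuse for the form `∑ (g j · x) ^ 2`, and `K` lies in the
simplex of the chain -/
structure OChain (K : Set (Fin 3 → ℝ)) (f P : Fin 4 → Fin 3 → ℤ) (g : Fin 4 → Fin 3 → ℝ) : Prop where
  super : Superbase f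
  step : ∀ k, P (k + 1) = P k + f k
  sum_g : ∑ j, g j = 0
  norm : ∑ j, g j ⬝ᵥ toR (P j) = 1
  sub : ∀ k, ∀ x ∈ K, g k ⬝ᵥ x ≤ g k ⬝ᵥ toR (P k)
  obt : ∀ l m, l ≠ m → ∑ j, (g j ⬝ᵥ toR (f l)) * (g j ⬝ᵥ toR (f m)) ≤ 0

/-- the matrix of a chain -/
def cm (P : Fin 4 → Fin 3 → ℤ) (g : Fin 4 → Fin 3 → ℝ) (k j : Fin 4) : ℝ :=
  g j ⬝ᵥ toR (P j) - g j ⬝ᵥ toR (P k)

end Pool.Agent.Helper38.TET
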