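import Pool.Agent.Helper38.TET.Defs
import Pool.Agent.Helper21.TET.Spn
import Pool.Agent.Helper22.Sym.Selling

/-!
# A lattice-free simplex lies in an obtuse chain simplex with the same normals
-/

set_option autoImplicit false

namespace Pool.Agent.Helper38.TET

open Matrix Pool.Agent.Helper12.LW
open Pool.Agent.Helper84.FL (Superbase WidthLe)
open Pool.Agent.Helper21.TET (chainS)

/-- the form `∑ (g j · x) ^ 2` -/
noncomputable def Qg (g : Fin 4 → Fin 3 → ℝ) : Matrix (Fin 3) (Fin 3) ℝ := ∑ j, vecMulVec (g j) (g j)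

theorem Qg_form (g : Fin 4 → Fin 3 → ℝ) (x y : Fin 3 → ℝ) :
    x ⬝ᵥ Qg g *ᵥ y = ∑ j, (g j ⬝ᵥ x) * (g j ⬝ᵥ y) := by
  unfold Qg
  rw [Matrix.sum_mulVec, dotProduct_sum]
  refine Finset.sum_congr rfl fun j _ => ?_
  rw [Matrix.vecMulVec_mulVec, dotProduct_smul, dotProduct_comm x (g j)]
  simp [mul_comm]

theorem Qg_posDef (g : Fin 4 → Fin 3 → ℝ)
    (hspan : ∀ m : Fin 3 → ℝ, ∃ c : Fin 4 → ℝ, ∑ k, c k • g k = m) : (Qg g).PosDef := by
  rw [Matrix.posDef_iff_dotProduct_mulVec]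
  refine ⟨?_, fun {x} hx => ?_⟩
  · unfold Qg Matrix.IsHermitian
    rw [Matrix.conjTranspose_sum]
    refine Finset.sum_congr rfl fun j _ => ?_
    ext a b
    simp [Matrix.vecMulVec_apply, mul_comm]
  · have h1 : star x ⬝ᵥ Qg g *ᵥ x = ∑ j, (g j ⬝ᵥ x) * (g j ⬝ᵥ x) := by
      have : star x = x := by
        funext i
        simp
      rw [this, Qg_form]
    rw [h1]
    have h0 : 0 ≤ ∑ j, (g j ⬝ᵥ x) * (g j ⬝ᵥ x) := Finset.sum_nonneg fun j _ => mul_self_nonneg _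
    refine lt_of_le_of_ne h0 fun h2 => hx ?_
    have h3 := (Finset.sum_eq_zero_iff_of_nonneg fun j _ => mul_self_nonneg (g j ⬝ᵥ x)).1 h2.symm
    obtain ⟨c, hc⟩ := hspan x
    have h4 : x ⬝ᵥ x = 0 := by
      conv_lhs => rw [← hc]
      rw [sum_dotProduct]
      refine Finset.sum_eq_zero fun j _ => ?_
      rw [smul_dotProduct, hc]
      have := h3 j (Finset.mem_univ j)
      rw [mul_self_eq_zero] at this
      rw [this, smul_zero]
    exact dotProduct_self_eq_zero.1 h4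

theorem det_of_superb (f u : Fin 4 → Fin 3 → ℤ) (h : Pool.Agent.Helper22.Sym.Superb f u) :
    IsUnit (Matrix.of ![f 0, f 1, f 2]).det := by
  have h1 : Matrix.of ![f 0, f 1, f 2] * (Matrix.of ![u 0 - u 3, u 1 - u 3, u 2 - u 3])ᵀ = 1 := by
    ext a b
    rw [Matrix.mul_apply]
    have h2 : ∀ a b : Fin 3, ∑ k, Matrix.of ![f 0, f 1, f 2] a k *
        (Matrix.of ![u 0 - u 3, u 1 - u 3, u 2 - u 3])ᵀ k b
        = (u b.castSucc - u 3) ⬝ᵥ f a.castSucc := by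
      intro a b
      unfold dotProduct
      refine Finset.sum_congr rfl fun k _ => ?_
      fin_cases a <;> fin_cases b <;> simp [Matrix.transpose_apply, mul_comm]
    rw [h2, h.2]
    fin_cases a <;> fin_cases b <;> decide
  have h2 := congrArg Matrix.det h1
  rw [Matrix.det_mul, Matrix.det_one] at h2
  exact IsUnit.of_mul_eq_one _ h2

theorem chainS_step (f : Fin 4 → Fin 3 → ℤ) (hf : ∑ l, f l = 0) (σ : Equiv.Perm (Fin 4)) (k : Fin 4) :
    chainS f σ (k + 1) = chainS f σ k + f (σ k) := by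
  have h1 : f (σ 0) + f (σ 1) + f (σ 2) + f (σ 3) = 0 := by
    have := Equiv.sum_comp σ f
    rw [hf, Fin.sum_univ_four] at this
    exact this
  unfold chainS
  simp only [Fin.sum_univ_four]
  fin_cases k
  · simp
  · simp
  · simp
  · simp
    exact h1.symm

/-- **A lattice-free simplex lies in an obtuse chain simplex.** -/
theorem ochain_of_simplex (g : Fin 4 → Fin 3 → ℝ) (b : Fin 4 → ℝ) (hg : ∑ j, g j = 0)
    (hb : ∑ j, b j = 1) (hspan : ∀ m : Fin 3 → ℝ, ∃ c : Fin 4 → ℝ, ∑ k, c k • g k = m)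
    (hfree : ∀ z : Fin 3 → ℤ, ∃ j, b j ≤ g j ⬝ᵥ toR z) :
    ∃ f P g', OChain {x : Fin 3 → ℝ | ∀ j, g j ⬝ᵥ x ≤ b j} f P g' ∧
      ∀ m : Fin 3 → ℝ, ∃ c : Fin 4 → ℝ, ∑ k, c k • g' k = m := by
  classical
  obtain ⟨f, u, hfu, hob⟩ := Pool.Agent.Helper22.Sym.selling (Qg g) (Qg_posDef g hspan)
  have hdet := det_of_superb f u hfu
  have hsb := Pool.Agent.Helper1.UB.LW.superbase_of_det f hfu.1 hdet
  obtain ⟨z, σ, ρ, hz⟩ := Pool.Agent.Helper21.TET.sperner_simplex g b hg hspan hfree f hfu.1 hdet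
  set P : Fin 4 → Fin 3 → ℤ := fun k => z + chainS f σ k with hP
  set h : ℝ := ∑ k, g (ρ k) ⬝ᵥ toR (P k) with hh
  have h1 : 1 ≤ h := by
    have h2 : ∑ k, b (ρ k) = 1 := by rw [Equiv.sum_comp ρ b, hb]
    rw [← h2, hh]
    exact Finset.sum_le_sum fun k _ => hz k
  have hpos : 0 < h := by linarith
  refine ⟨fun l => f (σ l), P, fun k => h⁻¹ • g (ρ k), ⟨?_, ?_, ?_, ?_, ?_, ?_⟩, ?_⟩
  · refine ⟨?_, fun w => ?_⟩
    · rw [Equiv.sum_comp σ f, hfu.1]
    · obtain ⟨a, ha⟩ := hsb.span w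
      refine ⟨fun l => a (σ l), ?_⟩
      rw [ha]
      exact (Equiv.sum_comp σ fun l => a l • f l).symm
  · intro k
    show z + chainS f σ (k + 1) = z + chainS f σ k + f (σ k)
    rw [chainS_step f hfu.1, add_assoc]
  · rw [← Finset.smul_sum, Equiv.sum_comp ρ g, hg, smul_zero]
  · simp only [smul_dotProduct, smul_eq_mul]
    rw [← Finset.mul_sum, ← hh, inv_mul_cancel₀ hpos.ne']
  · intro k x hx
    rw [smul_dotProduct, smul_dotProduct, smul_eq_mul, smul_eq_mul]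
    exact mul_le_mul_of_nonneg_left ((hx (ρ k)).trans (hz k)) (inv_nonneg.2 hpos.le)
  · intro l m hlm
    have h2 := hob (σ l) (σ m) fun h => hlm (σ.injective h)
    have h3 : (Pool.Agent.Helper22.Sym.toR (f (σ l))) ⬝ᵥ Qg g *ᵥ
        (Pool.Agent.Helper22.Sym.toR (f (σ m))) = ∑ j, (g j ⬝ᵥ toR (f (σ l))) * (g j ⬝ᵥ toR (f (σ m))) :=
      Qg_form g _ _
    rw [h3] at h2
    have h4 : ∑ j, (h⁻¹ • g (ρ j)) ⬝ᵥ toR (f (σ l)) * ((h⁻¹ • g (ρ j)) ⬝ᵥ toR (f (σ m)))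
        = h⁻¹ * h⁻¹ * ∑ j, (g j ⬝ᵥ toR (f (σ l))) * (g j ⬝ᵥ toR (f (σ m))) := by
      rw [← Equiv.sum_comp ρ fun j => (g j ⬝ᵥ toR (f (σ l))) * (g j ⬝ᵥ toR (f (σ m))), Finset.mul_sum]
      refine Finset.sum_congr rfl fun j _ => ?_
      rw [smul_dotProduct, smul_dotProduct, smul_eq_mul, smul_eq_mul]
      ring
    rw [h4]
    exact mul_nonpos_of_nonneg_of_nonpos (by positivity) h2
  · intro m
    obtain ⟨c, hc⟩ := hspan m
    refine ⟨fun k => h * c (ρ k), ?_⟩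
    rw [← hc, ← Equiv.sum_comp ρ fun k => c k • g k]
    refine Finset.sum_congr rfl fun k _ => ?_
    rw [smul_smul]
    congr 1
    field_simp

end Pool.Agent.Helper38.TET
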