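import Pool.Agent.Helper84.FL.Sharp

/-!
# The simplex of Codenotti and Santos as a tetrahedron given by its vertices
-/

set_option autoImplicit false

namespace Pool.Agent.Helper38.TET

open Pool.Agent.Helper84.FL Pool.Agent.Helper84.FL.SharpAux

theorem width_vv {r : ℝ} (y : Fin 3 → ℤ) (hy : y ≠ 0) :
    ∃ i j, 2 + r ≤ ∑ t, (vv r i t - vv r j t) * (y t : ℝ) := by
  set w : Fin 4 → ℝ := fun l => ∑ i, vv r l i * (y i : ℝ) with hw
  obtain ⟨i, hi⟩ := Finite.exists_max w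
  obtain ⟨j, hj⟩ := Finite.exists_min w
  refine ⟨i, j, ?_⟩
  have hd : ∑ t, (vv r i t - vv r j t) * (y t : ℝ) = w i - w j := by
    simp only [hw, sub_mul, Finset.sum_sub_distrib]
  rw [hd]
  obtain ⟨b, hb⟩ : ∃ b : Fin 4 → ℤ, b = ![y 0, y 1, y 2, -(y 0 + y 1 + y 2)] := ⟨_, rfl⟩
  have b0 : b 0 = y 0 := by rw [hb]; rfl
  have b1 : b 1 = y 1 := by rw [hb]; rfl
  have b2 : b 2 = y 2 := by rw [hb]; rfl
  have b3 : b 3 = -(y 0 + y 1 + y 2) := by rw [hb]; rfl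
  have t0 := term_le (b 0) (hj 0) (hi 0)
  have t1 := term_le (b 1) (hj 1) (hi 1)
  have t2 := term_le (b 2) (hj 2) (hi 2)
  have t3 := term_le (b 3) (hj 3) (hi 3)
  have c3 : (b 3 : ℝ) = -((y 0 : ℝ) + y 1 + y 2) := by rw [b3]; push_cast; ring
  rw [b0] at t0
  rw [b1] at t1
  rw [b2] at t2
  rw [c3] at t3
  set M := w i - w j with hM
  obtain ⟨Y0, hY0⟩ : ∃ Y : ℝ, Y = y 0 := ⟨_, rfl⟩
  obtain ⟨Y1, hY1⟩ : ∃ Y : ℝ, Y = y 1 := ⟨_, rfl⟩
  obtain ⟨Y2, hY2⟩ : ∃ Y : ℝ, Y = y 2 := ⟨_, rfl⟩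
  rw [← hY0] at t0 t3
  rw [← hY1] at t1 t3
  rw [← hY2] at t2 t3
  have w0 : w 0 = (7 + 3 * r) / 4 * Y0 + (2 + 2 * r) / 4 * Y1 + (1 + r) / 4 * Y2 := by
    simp [hw, vv, Fin.sum_univ_three, hY0, hY1, hY2]
  have w1 : w 1 = (3 - r) / 4 * Y0 + (6 + 2 * r) / 4 * Y1 + (1 + r) / 4 * Y2 := by
    simp [hw, vv, Fin.sum_univ_three, hY0, hY1, hY2]
  have w2 : w 2 = (3 - r) / 4 * Y0 + (2 - 2 * r) / 4 * Y1 + (5 + r) / 4 * Y2 := by
    simp [hw, vv, Fin.sum_univ_three, hY0, hY1, hY2]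
  have w3 : w 3 = (-1 - r) / 4 * Y0 + (-2 - 2 * r) / 4 * Y1 + (-3 - 3 * r) / 4 * Y2 := by
    simp [hw, vv, Fin.sum_univ_three, hY0, hY1, hY2]
  have hid : Y0 * w 0 + Y1 * w 1 + Y2 * w 2 + -(Y0 + Y1 + Y2) * w 3 =
      (2 + r) * ((Y0 ^ 2 + Y1 ^ 2 + Y2 ^ 2 + (Y0 + Y1 + Y2) ^ 2) / 2) := by
    rw [w0, w1, w2, w3]; ring
  have hpos : 0 < (Y0 ^ 2 + Y1 ^ 2 + Y2 ^ 2 + (Y0 + Y1 + Y2) ^ 2) / 2 := by
    have hne : Y0 ≠ 0 ∨ Y1 ≠ 0 ∨ Y2 ≠ 0 := by
      by_contra hcon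
      push Not at hcon
      obtain ⟨q0, q1, q2⟩ := hcon
      apply hy
      funext t
      rw [hY0] at q0
      rw [hY1] at q1
      rw [hY2] at q2
      fin_cases t
      · exact_mod_cast q0
      · exact_mod_cast q1
      · exact_mod_cast q2
    rcases hne with h | h | h
    · have := pow_pos (abs_pos.2 h) 2
      rw [sq_abs] at this
      positivity
    · have := pow_pos (abs_pos.2 h) 2
      rw [sq_abs] at this
      positivity
    · have := pow_pos (abs_pos.2 h) 2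
      rw [sq_abs] at this
      positivity
  have hle : (2 + r) * ((Y0 ^ 2 + Y1 ^ 2 + Y2 ^ 2 + (Y0 + Y1 + Y2) ^ 2) / 2) ≤
      M * ((Y0 ^ 2 + Y1 ^ 2 + Y2 ^ 2 + (Y0 + Y1 + Y2) ^ 2) / 2) := by
    rw [← hid]
    nlinarith [t0, t1, t2, t3]
  exact le_of_mul_le_mul_right hle hpos


theorem not_mem_interior_of_sep (K : Set (Fin 3 → ℝ)) (f : Fin 4 → Fin 3 → ℤ) (hs : Sep f K)
    (z : Fin 3 → ℤ) : (fun i => (z i : ℝ)) ∉ interior K := by
  intro hz
  obtain ⟨n, j, hn, hx⟩ := hs z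
  rw [mem_interior_iff_mem_nhds, Metric.mem_nhds_iff] at hz
  obtain ⟨ε, hε, hball⟩ := hz
  have hn0 : n ≠ 0 := hn.1
  have hnorm : 0 < ‖n‖ := norm_pos_iff.mpr hn0
  set t : ℝ := ε / (2 * ‖n‖) with ht
  have htpos : 0 < t := by positivity
  have hmem : (fun i => (z i : ℝ) + t * n i) ∈ K := by
    apply hball
    rw [Metric.mem_ball, dist_eq_norm]
    have : ((fun i => (z i : ℝ) + t * n i) - fun i => (z i : ℝ)) = t • n := by
      funext i; simp
    rw [this, norm_smul, Real.norm_eq_abs, abs_of_pos htpos, ht]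
    have : ε / (2 * ‖n‖) * ‖n‖ = ε / 2 := by field_simp
    rw [this]; linarith
  have h1 := hx _ hmem
  have h2 : pr n (fun i => (z i : ℝ) + t * n i) = pz n z + t * ∑ i, n i * n i := by
    unfold pr pz
    rw [Finset.mul_sum, ← Finset.sum_add_distrib]
    exact Finset.sum_congr rfl fun i _ => by ring
  have h3 : 0 < ∑ i, n i * n i := by
    obtain ⟨i, hi⟩ : ∃ i, n i ≠ 0 := by
      by_contra hcon; push Not at hcon; exact hn0 (funext hcon)
    exact Finset.sum_pos' (fun i _ => mul_self_nonneg _) ⟨i, Finset.mem_univ _, mul_self_pos.mpr hi⟩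
  rw [h2] at h1
  nlinarith [mul_pos htpos h3]

/-- the facet functions at the vertices -/
theorem facet_vv {r : ℝ} (hr : r * r = 2) (k l : Fin 4) :
    hh r k - pr (nn r k) (vv r l) = if k = l then hh r k - pr (nn r k) (vv r k) else 0 := by
  by_cases h : k = l
  · rw [if_pos h, h]
  · rw [if_neg h]
    unfold pr
    rw [Fin.sum_univ_three]
    fin_cases k <;> fin_cases l <;> first | exact absurd rfl h | skip
    all_goals
      simp only [hh, nn, vv, Matrix.cons_val_zero, Matrix.cons_val_one, Matrix.cons_val,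
        Fin.mk_one, Fin.zero_eta, Fin.reduceFinMk]
      nlinarith

theorem facet_pos {r : ℝ} (hr : r * r = 2) (h1 : 1 ≤ r) (k : Fin 4) :
    0 < hh r k - pr (nn r k) (vv r k) := by
  unfold pr
  rw [Fin.sum_univ_three]
  fin_cases k <;>
    simp only [hh, nn, vv, Matrix.cons_val_zero, Matrix.cons_val_one, Matrix.cons_val,
      Fin.mk_one, Fin.zero_eta, Fin.reduceFinMk] <;> nlinarith

theorem affineIndependent_vv {r : ℝ} (hr : r * r = 2) (h1 : 1 ≤ r) : AffineIndependent ℝ (vv r) := by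
  classical
  rw [affineIndependent_iff]
  intro s w hw hs k hk
  have h2 : ∑ l ∈ s, w l * (hh r k - pr (nn r k) (vv r l)) = 0 := by
    have e1 : ∑ l ∈ s, w l * pr (nn r k) (vv r l) = pr (nn r k) (∑ l ∈ s, w l • vv r l) := by
      unfold pr
      simp only [Finset.sum_apply, Pi.smul_apply, smul_eq_mul, Finset.mul_sum]
      rw [Finset.sum_comm]
      exact Finset.sum_congr rfl fun i _ => Finset.sum_congr rfl fun l _ => by ring
    simp only [mul_sub, Finset.sum_sub_distrib]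
    rw [e1, hs, ← Finset.sum_mul, hw]
    simp [pr]
  have h3 : ∑ l ∈ s, w l * (hh r k - pr (nn r k) (vv r l))
      = w k * (hh r k - pr (nn r k) (vv r k)) := by
    rw [Finset.sum_eq_single_of_mem k hk]
    intro l _ hl
    rw [facet_vv hr, if_neg (Ne.symm hl), mul_zero]
  rw [h3] at h2
  rcases mul_eq_zero.1 h2 with h | h
  · exact h
  · exact absurd h (facet_pos hr h1 k).ne'

/-- **The bound is attained by a lattice-free tetrahedron.** -/
theorem tet_sharp : ∃ v : Fin 4 → Fin 3 → ℝ, AffineIndependent ℝ v ∧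
    (∀ z : Fin 3 → ℤ, (fun i => (z i : ℝ)) ∉ interior (convexHull ℝ (Set.range v))) ∧
    ∀ y : Fin 3 → ℤ, y ≠ 0 → ∃ x ∈ convexHull ℝ (Set.range v), ∃ x' ∈ convexHull ℝ (Set.range v),
      2 + Real.sqrt 2 ≤ ∑ i, (x i - x' i) * (y i : ℝ) := by
  have hr : Real.sqrt 2 * Real.sqrt 2 = 2 := Real.mul_self_sqrt (by norm_num)
  have h1 : 1 ≤ Real.sqrt 2 := by
    rw [Real.one_le_sqrt]; norm_num
  have h2 : Real.sqrt 2 ≤ 3 / 2 := by
    rw [Real.sqrt_le_left (by norm_num)]; norm_num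
  refine ⟨vv (Real.sqrt 2), affineIndependent_vv hr h1, fun z hz => ?_, fun y hy => ?_⟩
  · refine not_mem_interior_of_sep (KS (Real.sqrt 2)) f (sep_KS h1 h2) z (interior_mono ?_ hz)
    refine convexHull_min ?_ (convex_KS _)
    rintro _ ⟨l, rfl⟩
    exact vv_mem hr h1 l
  · obtain ⟨i, j, hij⟩ := width_vv y hy
    exact ⟨_, subset_convexHull ℝ _ ⟨i, rfl⟩, _, subset_convexHull ℝ _ ⟨j, rfl⟩, hij⟩

end Pool.Agent.Helper38.TET
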