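import Pool.Agent.Helper38.TET.Simplex
import Pool.Agent.Helper38.TET.Sharp

/-!
# The final statement, from the certificate
-/

set_option autoImplicit false

namespace Pool.Agent.Helper38.TET

open Matrix Pool.Agent.Helper12.LW
open Pool.Agent.Helper84.FL (Superbase WidthLe)

/-- **Bodies in obtuse chain simplices**, from the certificate, in elementary terms -/
theorem body_of (core : ∀ D, ¬ Pool.Agent.Helper44.CK.Facts D) (K : Set (Fin 3 → ℝ))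
    (hc : IsCompact K) (hcv : Convex ℝ K) (hi : (interior K).Nonempty)
    (hfree : ∀ z : Fin 3 → ℤ, (fun i => (z i : ℝ)) ∉ interior K)
    (f P : Fin 4 → Fin 3 → ℤ) (g : Fin 4 → Fin 3 → ℝ) (hf : ∑ l, f l = 0)
    (hgen : ∀ z : Fin 3 → ℤ, ∃ a : Fin 4 → ℤ, z = ∑ l, a l • f l)
    (hP : ∀ k, P (k + 1) = P k + f k) (hg : ∑ j, g j = 0)
    (hspan : ∀ m : Fin 3 → ℝ, ∃ c : Fin 4 → ℝ, ∑ k, c k • g k = m)
    (hone : ∑ j, ∑ i, g j i * (P j i : ℝ) = 1)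
    (hsub : ∀ k, ∀ x ∈ K, ∑ i, g k i * x i ≤ ∑ i, g k i * (P k i : ℝ))
    (hob : ∀ l m, l ≠ m → ∑ j, (∑ i, g j i * (f l i : ℝ)) * (∑ i, g j i * (f m i : ℝ)) ≤ 0) :
    ∃ y : Fin 3 → ℤ, y ≠ 0 ∧ ∀ x ∈ K, ∀ x' ∈ K, ∑ i, (x i - x' i) * (y i : ℝ) ≤ 2 + Real.sqrt 2 :=
  flatA_of core (f := f) (P := P) (g := g) ⟨hc, hcv, hi, hfree⟩
    ⟨⟨hf, hgen⟩, hP, hg, hone, hsub, hob⟩ hspan

/-- **A lattice-free tetrahedron lies in an obtuse chain simplex**, in elementary terms -/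
theorem tet_chain (v : Fin 4 → Fin 3 → ℝ) (hv : AffineIndependent ℝ v)
    (hfree : ∀ z : Fin 3 → ℤ, (fun i => (z i : ℝ)) ∉ interior (convexHull ℝ (Set.range v))) :
    ∃ (f P : Fin 4 → Fin 3 → ℤ) (g : Fin 4 → Fin 3 → ℝ), ∑ l, f l = 0 ∧
      (∀ z : Fin 3 → ℤ, ∃ a : Fin 4 → ℤ, z = ∑ l, a l • f l) ∧ (∀ k, P (k + 1) = P k + f k) ∧
      ∑ j, g j = 0 ∧ (∀ m : Fin 3 → ℝ, ∃ c : Fin 4 → ℝ, ∑ k, c k • g k = m) ∧
      ∑ j, ∑ i, g j i * (P j i : ℝ) = 1 ∧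
      (∀ k, ∀ x ∈ convexHull ℝ (Set.range v), ∑ i, g k i * x i ≤ ∑ i, g k i * (P k i : ℝ)) ∧
      ∀ l m, l ≠ m → ∑ j, (∑ i, g j i * (f l i : ℝ)) * (∑ i, g j i * (f m i : ℝ)) ≤ 0 := by
  obtain ⟨g, b, hg, hb, hspan, hconv, hint, hne⟩ := facets v hv
  have hfr : ∀ z : Fin 3 → ℤ, ∃ j, b j ≤ g j ⬝ᵥ toR z := by
    intro z
    by_contra hcon
    push Not at hcon
    exact hfree z (by rw [hint]; exact hcon)
  obtain ⟨f, P, g', hO, hsp⟩ := ochain_of_simplex g b hg hb hspan hfr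
  rw [← hconv] at hO
  exact ⟨f, P, g', hO.super.sum, hO.super.span, hO.step, hO.sum_g, hsp, hO.norm, hO.sub, hO.obt⟩

end Pool.Agent.Helper38.TET
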