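import Pool.Agent.Helper38.TET.Tet
import Pool.Agent.Helper82.TET.Glue

/-!
# Tetrahedra: from the vertices to the facets, and Theorem A and the theorem on tetrahedra from the certificate
-/

set_option autoImplicit false

namespace Pool.Agent.Helper38.TET

open Matrix Pool.Agent.Helper12.LW
open Pool.Agent.Helper84.FL (Superbase WidthLe)

/-- an affinely independent family of four points of the space as an affine basis -/
noncomputable def basisOf (v : Fin 4 → Fin 3 → ℝ) (hv : AffineIndependent ℝ v) :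
    AffineBasis (Fin 4) ℝ (Fin 3 → ℝ) :=
  ⟨v, hv, hv.affineSpan_eq_top_iff_card_eq_finrank_add_one.2 (by simp)⟩

/-- **The facets of a tetrahedron.** -/
theorem facets (v : Fin 4 → Fin 3 → ℝ) (hv : AffineIndependent ℝ v) :
    ∃ (g : Fin 4 → Fin 3 → ℝ) (b : Fin 4 → ℝ), ∑ j, g j = 0 ∧ ∑ j, b j = 1 ∧
      (∀ m : Fin 3 → ℝ, ∃ c : Fin 4 → ℝ, ∑ k, c k • g k = m) ∧
      convexHull ℝ (Set.range v) = {x | ∀ j, g j ⬝ᵥ x ≤ b j} ∧
      interior (convexHull ℝ (Set.range v)) = {x | ∀ j, g j ⬝ᵥ x < b j} ∧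
      (interior (convexHull ℝ (Set.range v))).Nonempty := by
  classical
  set B := basisOf v hv with hB
  have hBv : (B : Fin 4 → Fin 3 → ℝ) = v := rfl
  have hco : ∀ j x, B.coord j x = B.coord j 0 + (B.coord j).linear x := by
    intro j x
    have h1 := (B.coord j).map_vadd 0 x
    simp only [vadd_eq_add, add_zero] at h1
    rw [h1, add_comm]
  have hlin : ∀ j (x : Fin 3 → ℝ), (B.coord j).linear x = ∑ i, x i * (B.coord j).linear (Pi.single i 1) := by
    intro j x
    conv_lhs => rw [show x = ∑ i, x i • (Pi.single i (1 : ℝ) : Fin 3 → ℝ) by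
      funext k
      simp [Finset.sum_apply, Pi.single_apply]]
    rw [map_sum]
    exact Finset.sum_congr rfl fun i _ => by rw [map_smul, smul_eq_mul]
  set g : Fin 4 → Fin 3 → ℝ := fun j i => -(B.coord j).linear (Pi.single i 1) with hg
  set b : Fin 4 → ℝ := fun j => B.coord j 0 with hb
  have hgx : ∀ j x, B.coord j x = b j - g j ⬝ᵥ x := by
    intro j x
    rw [hco, hlin]
    show _ = B.coord j 0 - ∑ i, -(B.coord j).linear (Pi.single i 1) * x i
    rw [sub_eq_add_neg, ← Finset.sum_neg_distrib]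
    congr 1
    exact Finset.sum_congr rfl fun i _ => by ring
  have hbs : ∑ j, b j = 1 := B.sum_coord_apply_eq_one 0
  have hgs : ∑ j, g j = 0 := by
    funext i
    have h1 := B.sum_coord_apply_eq_one (Pi.single i 1)
    simp only [hgx, Finset.sum_sub_distrib, hbs] at h1
    have h2 : ∑ j, g j ⬝ᵥ (Pi.single i (1 : ℝ) : Fin 3 → ℝ) = (∑ j, g j) i := by
      rw [Finset.sum_apply]
      exact Finset.sum_congr rfl fun j _ => by rw [dotProduct_single, mul_one]
    rw [h2] at h1
    rw [Pi.zero_apply]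
    linarith
  refine ⟨g, b, hgs, hbs, fun m => ⟨fun k => -(m ⬝ᵥ v k), ?_⟩, ?_, ?_, ?_⟩
  · -- a linear functional is the combination of the coordinates with its values at the vertices
    have h1 : ∀ x : Fin 3 → ℝ, ∑ j, B.coord j x * (m ⬝ᵥ v j) = m ⬝ᵥ x := by
      intro x
      have h2 := B.linear_combination_coord_eq_self x
      conv_rhs => rw [← h2]
      rw [dotProduct_sum]
      exact Finset.sum_congr rfl fun j _ => by rw [dotProduct_smul, smul_eq_mul, hBv]
    funext i
    have h2 := h1 (Pi.single i 1)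
    have h3 := h1 0
    simp only [hgx, dotProduct_single, mul_one, dotProduct_zero, sub_zero, sub_mul,
      Finset.sum_sub_distrib] at h2 h3
    rw [h3, zero_sub] at h2
    rw [Finset.sum_apply, ← h2, ← Finset.sum_neg_distrib]
    exact Finset.sum_congr rfl fun j _ => by simp [mul_comm]
  · rw [← hBv, B.convexHull_eq_nonneg_coord]
    ext x
    simp only [Set.mem_setOf_eq, hgx, sub_nonneg]
  · rw [← hBv, B.interior_convexHull]
    ext x
    simp only [Set.mem_setOf_eq, hgx, sub_pos]
  · rw [← hBv]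
    exact ⟨_, B.centroid_mem_interior_convexHull⟩

/-- **Theorem A**, from the certificate -/
theorem flatA_of (core : ∀ D, ¬ Pool.Agent.Helper44.CK.Facts D) {K : Set (Fin 3 → ℝ)}
    {f P : Fin 4 → Fin 3 → ℤ} {g : Fin 4 → Fin 3 → ℝ} (hK : LFree K) (h : OChain K f P g)
    (hspan : ∀ m : Fin 3 → ℝ, ∃ c : Fin 4 → ℝ, ∑ k, c k • g k = m) :
    WidthLe K (2 + Real.sqrt 2) := by
  by_contra hW
  obtain ⟨D, hD⟩ := Pool.Agent.Helper82.TET.exists_facts hK h hspan hW
  exact core D hD

/-- **Tetrahedra**, from the certificate -/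
theorem tet_of (core : ∀ D, ¬ Pool.Agent.Helper44.CK.Facts D) (v : Fin 4 → Fin 3 → ℝ)
    (hv : AffineIndependent ℝ v)
    (hfree : ∀ z : Fin 3 → ℤ, (fun i => (z i : ℝ)) ∉ interior (convexHull ℝ (Set.range v))) :
    WidthLe (convexHull ℝ (Set.range v)) (2 + Real.sqrt 2) := by
  obtain ⟨g, b, hg, hb, hspan, hconv, hint, hne⟩ := facets v hv
  have hfr : ∀ z : Fin 3 → ℤ, ∃ j, b j ≤ g j ⬝ᵥ toR z := by
    intro z
    by_contra hcon
    push Not at hcon
    exact hfree z (by rw [hint]; exact hcon)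
  obtain ⟨f, P, g', hO, hsp⟩ := ochain_of_simplex g b hg hb hspan hfr
  rw [← hconv] at hO
  exact flatA_of core ⟨(Set.finite_range v).isCompact_convexHull ℝ, convex_convexHull ℝ _, hne, hfree⟩ hO hsp

end Pool.Agent.Helper38.TET
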